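import Pool.Agent.Lib.MP_ad6874_nt.Main3

/-!
# MP_ad6874_nt: many quadratic twists of `y² = x³ - k² x` with rank between 3 and a constant

`N A B r X` is the number of the fundamental discriminants `d`, `|d| < X`, for which the twist `E_d` of
`E : y² = x³ + A x + B` has a finitely generated group of rational points of rank exactly `r`. For every `k ≠ 0` and
`E : y² = x³ - k² x` there are `R` and `C` with `N_3 + ... + N_R ≥ X^(1/6) / (log X)^C` for all large `X`.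
-/

set_option autoImplicit false

namespace Pool.Agent.Results.MP_ad6874_nt.BoundedRank

/-- The quadratic twist by `d` of `y² = x³ + A x + B`, in the Weierstrass form `Y² = X³ + A d² X + B d³`
(the point `(x, y)` of `d y² = x³ + A x + B` corresponds to `(X, Y) = (d x, d² y)`). -/
def twist (A B d : ℤ) : WeierstrassCurve.Affine ℚ :=
  ⟨0, 0, 0, (A : ℚ) * (d : ℚ) ^ 2, (B : ℚ) * (d : ℚ) ^ 3⟩

/-- `d` is the discriminant of a quadratic field. -/
def IsFundamentalDiscriminant (d : ℤ) : Prop :=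
  (d % 4 = 1 ∧ Squarefree d ∧ d ≠ 1) ∨
    ∃ m : ℤ, d = 4 * m ∧ (m % 4 = 2 ∨ m % 4 = 3) ∧ Squarefree m

/-- The number of the fundamental discriminants `d` with `|d| < X` such that the group of rational points
of the twist by `d` of `y² = x³ + A x + B` is finitely generated and has rank `r`. -/
noncomputable def N (A B : ℤ) (r : ℕ) (X : ℝ) : ℕ :=
  {d : ℤ | IsFundamentalDiscriminant d ∧ |(d : ℝ)| < X ∧ AddGroup.FG (twist A B d).Point ∧
    Module.finrank ℤ (twist A B d).Point = r}.ncard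

theorem twist_eq (k d : ℤ) : twist (-(k ^ 2)) 0 d = Pool.Agent.Lib.MPad6874.cur (k * d) := by
  unfold twist Pool.Agent.Lib.MPad6874.cur
  push_cast
  congr 1 <;> ring

open Pool.Agent.Lib.MPad6874 in
theorem result (k : ℤ) (hk : k ≠ 0) : ∃ (R C : ℕ) (X₀ : ℝ), ∀ X : ℝ, X₀ ≤ X →
    X ^ ((1 : ℝ) / 6) / Real.log X ^ C ≤
      ((∑ r ∈ Finset.Icc 3 R, N (-(k ^ 2)) 0 r X : ℕ) : ℝ) := by
  obtain ⟨R, C, X₀, h⟩ := allFN3 k hk
  refine ⟨R, C, X₀, fun X hX => (h X hX).trans ?_⟩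
  have hfin : ∀ r : ℕ, {d : ℤ | IsFundamentalDiscriminant d ∧ |(d : ℝ)| < X ∧
      AddGroup.FG (twist (-(k ^ 2)) 0 d).Point ∧
      Module.finrank ℤ (twist (-(k ^ 2)) 0 d).Point = r}.Finite := by
    intro r
    refine (Set.finite_Icc (-⌈X⌉) ⌈X⌉).subset ?_
    rintro d ⟨_, hd, _⟩
    rw [abs_lt] at hd
    have h1 : (X : ℝ) ≤ (⌈X⌉ : ℝ) := Int.le_ceil X
    constructor
    · have : (-(⌈X⌉ : ℝ)) ≤ (d : ℝ) := by linarith
      exact_mod_cast this
    · have : (d : ℝ) ≤ (⌈X⌉ : ℝ) := by linarith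
      exact_mod_cast this
  have hsub : {d : ℤ | IsFund d ∧ |(d : ℝ)| < X ∧ AddGroup.FG (Pt (k * d)) ∧
      3 ≤ Module.finrank ℤ (Pt (k * d)) ∧ Module.finrank ℤ (Pt (k * d)) ≤ R} ⊆
      ⋃ r ∈ Finset.Icc 3 R, {d : ℤ | IsFundamentalDiscriminant d ∧ |(d : ℝ)| < X ∧
        AddGroup.FG (twist (-(k ^ 2)) 0 d).Point ∧
        Module.finrank ℤ (twist (-(k ^ 2)) 0 d).Point = r} := by
    rintro d ⟨h1, h2, h3, h4, h5⟩
    rw [Set.mem_iUnion₂]
    refine ⟨Module.finrank ℤ (Pt (k * d)), Finset.mem_Icc.2 ⟨h4, h5⟩, h1, h2, ?_, ?_⟩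
    · rw [twist_eq]
      exact h3
    · rw [twist_eq]
  have hcard := (Set.ncard_le_ncard hsub ((Finset.finite_toSet (Finset.Icc 3 R)).biUnion
    fun r _ => hfin r)).trans (Finset.set_ncard_biUnion_le _ _)
  have hcard' : ({d : ℤ | IsFund d ∧ |(d : ℝ)| < X ∧ AddGroup.FG (Pt (k * d)) ∧
      3 ≤ Module.finrank ℤ (Pt (k * d)) ∧ Module.finrank ℤ (Pt (k * d)) ≤ R}.ncard) ≤
      ∑ r ∈ Finset.Icc 3 R, N (-(k ^ 2)) 0 r X := hcard
  exact_mod_cast hcard'

end Pool.Agent.Results.MP_ad6874_nt.BoundedRank
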